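import Mathlib
import Pool.Agent.Helper669.Forcing

/-!
# The strong countable fan tightness game in the ground model and in forcing extensions

Sentences of the forcing language are sets of conditions (see `Helper669.Forcing`).  A name for a
subset of a ground model set `X` is a map `X → Set P`, the sentence `y ∈ A` is `meets (A y)`.
-/

set_option autoImplicit false
set_option linter.unusedSectionVars false

namespace Pool.Agent.N730.FT

open Pool.Agent.Helper669.Forcing
open Set

universe u v

/-! ### The game in the ground model -/

/-- II has a winning strategy in the strong countable fan tightness game at `x`.  The value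
`σ n A` is the answer of II in round `n`, when I has played `A 0, …, A n`. -/
def IIWins {X : Type v} [TopologicalSpace X] (x : X) : Prop :=
  ∃ σ : (n : ℕ) → (Fin (n + 1) → Set X) → X,
    (∀ (n : ℕ) (A : Fin (n + 1) → Set X), (∀ i, x ∈ closure (A i)) → σ n A ∈ A (Fin.last n)) ∧
    ∀ A : ℕ → Set X, (∀ n, x ∈ closure (A n)) → x ∈ closure (range fun n => σ n (fun i => A i))

/-! ### The game in the extension -/

section

variable {P : Type u} [Preorder P] {X : Type v}

/-- The named subsets `A` and `B` of `X` are equal. -/
def fSame (A B : X → Set P) : Set P :=
  fall fun y => fand (fimp (meets (A y)) (meets (B y))) (fimp (meets (B y)) (meets (A y)))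

/-- The named subset `A` of `X` has exactly one element. -/
def fPoint (A : X → Set P) : Set P :=
  fand (fex fun y => meets (A y))
    (fall fun y => fall fun y' => fimp (fand (meets (A y)) (meets (A y'))) (fground (y = y')))

/-- The named subset `A` is contained in `B`. -/
def fSub (A B : X → Set P) : Set P := fall fun y => fimp (meets (A y)) (meets (B y))

/-- `x` belongs to the closure of the named subset `A` of `X`, for the topology of the extension
which has the ground model topology as a base. -/
def fCl [TopologicalSpace X] (x : X) (A : X → Set P) : Set P :=
  fall fun O : Set X => fall fun _ : IsOpen O ∧ x ∈ O => fex fun y : X => fex fun _ : y ∈ O => meets (A y)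

/-- `S` names a winning strategy of II in the strong countable fan tightness game at `x` in the
extension.  Here `S n A` is a name for the set whose only element is the answer of II in round `n`
when I has played the named sets `A 0, …, A n`; the first clause says that it depends only on the
sets played and not on their names. -/
def fWinning [TopologicalSpace X] (x : X) (S : (n : ℕ) → (Fin (n + 1) → X → Set P) → X → Set P) : Set P :=
  fand
    (fall fun n => fall fun A : Fin (n + 1) → X → Set P => fall fun B : Fin (n + 1) → X → Set P =>
      fimp (fall fun i => fSame (A i) (B i)) (fSame (S n A) (S n B)))
    (fand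
      (fall fun n => fall fun A : Fin (n + 1) → X → Set P =>
        fimp (fall fun i => fCl x (A i)) (fand (fPoint (S n A)) (fSub (S n A) (A (Fin.last n)))))
      (fall fun A : ℕ → X → Set P =>
        fimp (fall fun n => fCl x (A n)) (fCl x fun y => ⋃ n, S n (fun i => A i) y)))

/-- In the extension, II has a winning strategy in the strong countable fan tightness game at the
point `x` of the space `X` with the ground model topology as a base. -/
def fIIWins (P : Type u) [Preorder P] {X : Type v} [TopologicalSpace X] (x : X) : Set P :=
  fex fun S : (n : ℕ) → (Fin (n + 1) → X → Set P) → X → Set P => fWinning x S

end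

end Pool.Agent.N730.FT
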