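import Mathlib
import Pool.Agent.N730.FT.Game

/-!
# The dual strategy: neighbourhoods
-/

set_option autoImplicit false
set_option linter.unusedSectionVars false

namespace Pool.Agent.N730.FT

open Set

universe v

variable {X : Type v} [TopologicalSpace X] {x : X}

/-- the sets which realize the points of a neighbourhood as answers -/
lemma answer_nhds {σ : (n : ℕ) → (Fin (n + 1) → Set X) → X}
    (h : ∀ (n : ℕ) (A : Fin (n + 1) → Set X), (∀ i, x ∈ closure (A i)) → σ n A ∈ A (Fin.last n))
    (n : ℕ) (A : Fin n → Set X) (hA : ∀ i, x ∈ closure (A i)) :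
    ∃ (O : Set X) (B : X → Set X), IsOpen O ∧ x ∈ O ∧ ∀ w ∈ O, x ∈ closure (B w) ∧
      σ n (Fin.snoc (α := fun _ => Set X) A (B w)) = w := by
  classical
  by_contra hcon
  -- the points which are not answers
  set Z : Set X := {w | ∀ B : Set X, x ∈ closure B → σ n (Fin.snoc (α := fun _ => Set X) A B) ≠ w} with hZ
  have h1 : x ∈ closure Z := by
    rw [mem_closure_iff]
    intro O hO hx
    by_contra hne
    rw [Set.not_nonempty_iff_eq_empty] at hne
    apply hcon
    have h2 : ∀ w ∈ O, ∃ B : Set X, x ∈ closure B ∧ σ n (Fin.snoc (α := fun _ => Set X) A B) = w := by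
      intro w hw
      by_contra h3
      push Not at h3
      have h4 : w ∈ O ∩ Z := ⟨hw, h3⟩
      rw [hne] at h4
      exact h4
    choose! B hB using h2
    exact ⟨O, B, hO, hx, hB⟩
  have h2 : σ n (Fin.snoc (α := fun _ => Set X) A Z) ∈ Z := by
    have h3 := h n (Fin.snoc (α := fun _ => Set X) A Z) (by
      intro i
      refine Fin.lastCases ?_ (fun i => ?_) i
      · rw [Fin.snoc_last]
        exact h1
      · rw [Fin.snoc_castSucc]
        exact hA i)
    rwa [Fin.snoc_last] at h3
  exact h2 Z h1 rfl

/-- **the dual strategy** -/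
theorem dual (h : IIWins x) : ∃ s : ℕ → (ℕ → X) → Set X, (∀ n z, IsOpen (s n z) ∧ x ∈ s n z) ∧
    (∀ n z z', (∀ i < n, z i = z' i) → s n z = s n z') ∧
    ∀ z : ℕ → X, (∀ n, z n ∈ s n z) → x ∈ closure (range z) := by
  classical
  obtain ⟨σ, h1, h2⟩ := h
  have h3 : ∀ (n : ℕ) (A : Fin n → Set X), ∃ (O : Set X) (B : X → Set X), IsOpen O ∧ x ∈ O ∧
      ((∀ i, x ∈ closure (A i)) → ∀ w ∈ O, x ∈ closure (B w) ∧
        σ n (Fin.snoc (α := fun _ => Set X) A (B w)) = w) := by
    intro n A
    by_cases hA : ∀ i, x ∈ closure (A i)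
    · obtain ⟨O, B, g1, g2, g3⟩ := answer_nhds h1 n A hA
      exact ⟨O, B, g1, g2, fun _ => g3⟩
    · exact ⟨univ, fun _ => univ, isOpen_univ, mem_univ x, fun h => absurd h hA⟩
  choose O B hO hx hOB using h3
  -- the histories
  let hist : (ℕ → X) → (n : ℕ) → (Fin n → Set X) := fun z n =>
    Nat.rec (motive := fun n => Fin n → Set X) Fin.elim0
      (fun n A => Fin.snoc (α := fun _ => Set X) A (B n A (z n))) n
  have hsucc : ∀ z n, hist z (n + 1) = Fin.snoc (α := fun _ => Set X) (hist z n) (B n (hist z n) (z n)) :=
    fun z n => rfl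
  refine ⟨fun n z => O n (hist z n), fun n z => ⟨hO _ _, hx _ _⟩, ?_, ?_⟩
  · intro n z z' hzz
    have h4 : ∀ m ≤ n, hist z m = hist z' m := by
      intro m
      induction m with
      | zero => intro _; rfl
      | succ m ih =>
        intro hm
        rw [hsucc, hsucc, ih (by omega), hzz m (by omega)]
    show O n (hist z n) = O n (hist z' n)
    rw [h4 n le_rfl]
  · intro z hz
    have hleg : ∀ n, ∀ i : Fin n, x ∈ closure (hist z n i) := by
      intro n
      induction n with
      | zero => exact fun i => i.elim0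
      | succ n ih =>
        intro i
        rw [hsucc]
        refine Fin.lastCases ?_ (fun i => ?_) i
        · rw [Fin.snoc_last]
          exact (hOB n (hist z n) ih (z n) (hz n)).1
        · rw [Fin.snoc_castSucc]
          exact ih i
    -- the infinite history
    set H : ℕ → Set X := fun n => B n (hist z n) (z n) with hH
    have hhist : ∀ n, hist z n = fun i : Fin n => H i := by
      intro n
      induction n with
      | zero => exact funext fun i => i.elim0
      | succ n ih =>
        funext i
        rw [hsucc]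
        refine Fin.lastCases ?_ (fun i => ?_) i
        · rw [Fin.snoc_last]
          rfl
        · rw [Fin.snoc_castSucc, ih]
          rfl
    have h5 := h2 H (fun n => (hOB n (hist z n) (hleg n) (z n) (hz n)).1)
    have h6 : (fun n => σ n (fun i : Fin (n + 1) => H i)) = z := by
      funext n
      have h7 := (hOB n (hist z n) (hleg n) (z n) (hz n)).2
      have h8 := hhist (n + 1)
      rw [hsucc] at h8
      rw [h8] at h7
      exact h7
    rw [h6] at h5
    exact h5

end Pool.Agent.N730.FT
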