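import Mathlib
import Pool.Agent.N730.FT.Dual

/-!
# Every forcing preserves the winning strategies of II in the strong countable fan tightness game
-/

set_option autoImplicit false
set_option linter.unusedSectionVars false

namespace Pool.Agent.N730.FT

open Pool.Agent.Helper669.Forcing
open Set

universe u v

variable {P : Type u} [Preorder P] {X : Type v}

/-- `meets` is closed under density -/
lemma meets_dense {N : Set P} {p : P} (h : ∀ q ≤ p, ∃ r ≤ q, r ∈ meets N) : p ∈ meets N := by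
  intro q hq
  obtain ⟨r, hr, h1⟩ := h q hq
  obtain ⟨t, ht, s, hs, hts⟩ := h1 r le_rfl
  exact ⟨t, ht.trans hr, s, hs, hts⟩

lemma same_iff {A B : X → Set P} {p : P} (h : p ∈ fSame A B) {q : P} (hq : q ≤ p) (y : X) :
    q ∈ meets (A y) ↔ q ∈ meets (B y) := by
  constructor
  · intro h1
    refine meets_dense fun r hr => ?_
    exact mem_fimp.1 (h y).1 r (hr.trans hq) (down_meets _ q h1 r hr)
  · intro h1
    refine meets_dense fun r hr => ?_
    exact mem_fimp.1 (h y).2 r (hr.trans hq) (down_meets _ q h1 r hr)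

lemma same_of {A B : X → Set P} {p : P} (h : ∀ q ≤ p, ∀ y, q ∈ meets (A y) ↔ q ∈ meets (B y)) :
    p ∈ fSame A B := fun y =>
  ⟨mem_fimp.2 fun q hq h1 => ⟨q, le_rfl, (h q hq y).1 h1⟩,
    mem_fimp.2 fun q hq h1 => ⟨q, le_rfl, (h q hq y).2 h1⟩⟩

lemma down_fSame (A B : X → Set P) : Down (fSame A B) :=
  down_fall fun _ => down_fand (down_fimp _ _) (down_fimp _ _)

lemma down_fCl [TopologicalSpace X] (x : X) (A : X → Set P) : Down (fCl x A) :=
  down_fall fun _ => down_fall fun _ => down_fex _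

lemma fCl_ex [TopologicalSpace X] {x : X} {A : X → Set P} {p : P} (h : p ∈ fCl x A) {O : Set X}
    (hO : IsOpen O) (hx : x ∈ O) {q : P} (hq : q ≤ p) : ∃ r ≤ q, ∃ y ∈ O, r ∈ meets (A y) := by
  obtain ⟨r, hr, y, h1⟩ := mem_fex.1 (h O ⟨hO, hx⟩) q hq
  obtain ⟨t, ht, hy, h2⟩ := mem_fex.1 h1 r le_rfl
  exact ⟨t, ht.trans hr, y, hy, h2⟩

/-- the condition forces that `z i` is the least element of `s i z` in the set named by `B` -/
def E (s : ℕ → (ℕ → X) → Set X) (B : X → Set P) (i : ℕ) (z : ℕ → X) : Set P :=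
  {p | z i ∈ s i z ∧ p ∈ meets (B (z i)) ∧
    ∀ w, WellOrderingRel w (z i) → w ∈ s i z → p ∈ fnot (meets (B w))}

variable {s : ℕ → (ℕ → X) → Set X}

lemma down_E (B : X → Set P) (i : ℕ) (z : ℕ → X) : Down (E s B i z) :=
  fun p hp q hq => ⟨hp.1, down_meets _ p hp.2.1 q hq, fun w hw hws =>
    down_fnot _ p (hp.2.2 w hw hws) q hq⟩

lemma E_congr (hs : ∀ n z z', (∀ i < n, z i = z' i) → s n z = s n z') (B : X → Set P) {i : ℕ}
    {z z' : ℕ → X} (h : ∀ j ≤ i, z j = z' j) : E s B i z = E s B i z' := by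
  have h1 : s i z = s i z' := hs i z z' fun j hj => h j hj.le
  unfold E
  rw [h1, h i le_rfl]

lemma E_same {B B' : X → Set P} {i : ℕ} {z : ℕ → X} {p : P} (hB : p ∈ fSame B B') {q : P}
    (hq : q ≤ p) (h : q ∈ E s B i z) : q ∈ E s B' i z := by
  refine ⟨h.1, (same_iff hB hq _).1 h.2.1, fun w hw hws r hr h1 => ?_⟩
  exact h.2.2 w hw hws r hr ((same_iff hB (hr.trans hq) _).2 h1)

lemma E_unique (hs : ∀ n z z', (∀ i < n, z i = z' i) → s n z = s n z') {B : X → Set P} {i : ℕ}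
    {z z' : ℕ → X} (hz : ∀ j < i, z j = z' j) {p : P} (h : p ∈ E s B i z) (h' : p ∈ E s B i z') :
    z i = z' i := by
  have h1 : s i z = s i z' := hs i z z' hz
  rcases trichotomous_of WellOrderingRel (z i) (z' i) with h2 | h2 | h2
  · exact absurd h.2.1 (h'.2.2 (z i) h2 (h1 ▸ h.1) p le_rfl)
  · exact h2
  · exact absurd h'.2.1 (h.2.2 (z' i) h2 (h1 ▸ h'.1) p le_rfl)

/-- the next answer can be decided -/
lemma E_ex [TopologicalSpace X] {x : X} (hs : ∀ n z z', (∀ i < n, z i = z' i) → s n z = s n z')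
    (ho : ∀ n z, IsOpen (s n z) ∧ x ∈ s n z) {B : X → Set P} {p : P} (hB : p ∈ fCl x B) (i : ℕ)
    (z : ℕ → X) {q : P} (hq : q ≤ p) :
    ∃ r ≤ q, ∃ z' : ℕ → X, (∀ j, j ≠ i → z' j = z j) ∧ r ∈ E s B i z' := by
  classical
  set Z : Set X := {w | w ∈ s i z ∧ ∃ r ≤ q, r ∈ meets (B w)} with hZ
  have hne : Z.Nonempty := by
    obtain ⟨r, hr, y, hy, h1⟩ := fCl_ex hB (ho i z).1 (ho i z).2 hq
    exact ⟨y, hy, r, hr, h1⟩
  have hwf : WellFounded (WellOrderingRel (α := X)) := IsWellFounded.wf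
  obtain ⟨hw1, r, hr, hw2⟩ := hwf.min_mem Z hne
  set w := hwf.min Z hne with hw
  have hsz : s i (Function.update z i w) = s i z :=
    hs i _ _ fun j hj => Function.update_of_ne hj.ne _ _
  refine ⟨r, hr, Function.update z i w, fun j hj => Function.update_of_ne hj _ _, ?_, ?_, ?_⟩
  · rw [Function.update_self, hsz]
    exact hw1
  · rw [Function.update_self]
    exact hw2
  · intro w' hw' hws t ht h1
    rw [Function.update_self] at hw'
    rw [hsz] at hws
    exact hwf.not_lt_min Z ⟨hws, t, ht.trans hr, h1⟩ hw'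

/-- the first answers can be decided -/
lemma E_all [TopologicalSpace X] {x : X} (hs : ∀ n z z', (∀ i < n, z i = z' i) → s n z = s n z')
    (ho : ∀ n z, IsOpen (s n z) ∧ x ∈ s n z) {A : ℕ → X → Set P} {p : P}
    (hA : ∀ n, p ∈ fCl x (A n)) (n : ℕ) {q : P} (hq : q ≤ p) :
    ∃ r ≤ q, ∃ z : ℕ → X, ∀ i < n, r ∈ E s (A i) i z := by
  induction n with
  | zero => exact ⟨q, le_rfl, fun _ => x, fun i hi => absurd hi (Nat.not_lt_zero i)⟩
  | succ n ih =>
    obtain ⟨r, hr, z, hz⟩ := ih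
    obtain ⟨t, ht, z', hz', h1⟩ := E_ex hs ho (hA n) n z (hr.trans hq)
    refine ⟨t, ht.trans hr, z', fun i hi => ?_⟩
    rcases Nat.lt_succ_iff_lt_or_eq.1 hi with h | rfl
    · have h2 := down_E (A i) i z r (hz i h) t ht
      rwa [E_congr hs (A i) (z := z) (z' := z') fun j hj => (hz' j (by omega)).symm] at h2
    · exact h1

/-- the name of the strategy -/
def Sn (s : ℕ → (ℕ → X) → Set X) (n : ℕ) (A : Fin (n + 1) → X → Set P) (y : X) : Set P :=
  {p | ∃ z : ℕ → X, z n = y ∧ ∀ i : Fin (n + 1), p ∈ E s (A i) i z}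

lemma down_Sn (n : ℕ) (A : Fin (n + 1) → X → Set P) (y : X) : Down (Sn s n A y) := by
  rintro p ⟨z, h1, h2⟩ q hq
  exact ⟨z, h1, fun i => down_E _ _ _ p (h2 i) q hq⟩

lemma Sn_unique (hs : ∀ n z z', (∀ i < n, z i = z' i) → s n z = s n z') {n : ℕ}
    {A : Fin (n + 1) → X → Set P} {y y' : X} {p : P} (h : p ∈ Sn s n A y) (h' : p ∈ Sn s n A y') :
    y = y' := by
  obtain ⟨z, rfl, h1⟩ := h
  obtain ⟨z', rfl, h2⟩ := h'
  have h3 : ∀ m, ∀ i, i < m → i ≤ n → z i = z' i := by
    intro m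
    induction m with
    | zero => exact fun i hi => absurd hi (Nat.not_lt_zero i)
    | succ m ih =>
      intro i hi hin
      rcases Nat.lt_succ_iff_lt_or_eq.1 hi with h | rfl
      · exact ih i h hin
      · exact E_unique hs (fun j hj => ih j hj (hj.le.trans hin))
          (h1 ⟨i, Nat.lt_succ_of_le hin⟩) (h2 ⟨i, Nat.lt_succ_of_le hin⟩)
  exact h3 (n + 1) n (Nat.lt_succ_self n) le_rfl

lemma Sn_same {n : ℕ} {A B : Fin (n + 1) → X → Set P} {p : P} (h : ∀ i, p ∈ fSame (A i) (B i))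
    {y : X} {q : P} (hq : q ≤ p) (hy : q ∈ meets (Sn s n A y)) : q ∈ meets (Sn s n B y) := by
  refine meets_dense fun r hr => ?_
  obtain ⟨t, ht, h1⟩ := exists_of_meets (down_Sn n A y) (down_meets _ q hy r hr)
  obtain ⟨z, hz, h2⟩ := h1
  exact ⟨t, ht, meets_of_mem ⟨z, hz, fun i => E_same (h i) ((ht.trans hr).trans hq) (h2 i)⟩⟩

/-- **winning** -/
theorem win [TopologicalSpace X] {x : X} (ho : ∀ n z, IsOpen (s n z) ∧ x ∈ s n z)
    (hs : ∀ n z z', (∀ i < n, z i = z' i) → s n z = s n z')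
    (hw : ∀ z : ℕ → X, (∀ n, z n ∈ s n z) → x ∈ closure (range z)) (p : P) :
    p ∈ fWinning x (Sn (P := P) s) := by
  classical
  refine ⟨fun n A B => mem_fimp.2 fun q hq h => ⟨q, le_rfl, ?_⟩,
    fun n A => mem_fimp.2 fun q hq h => ⟨q, le_rfl, ?_, ?_⟩,
    fun A => mem_fimp.2 fun q hq h => ⟨q, le_rfl, ?_⟩⟩
  · -- independence of the names
    have h' : ∀ i, q ∈ fSame (B i) (A i) := fun i y => ⟨(h i y).2, (h i y).1⟩
    exact same_of fun r hr y => ⟨Sn_same h hr, Sn_same h' hr⟩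
  · -- one point
    refine ⟨mem_fex.2 fun r hr => ?_, fun y y' => mem_fimp.2 fun r hr h1 => ⟨r, le_rfl, ?_⟩⟩
    · set A' : ℕ → X → Set P := fun i => if h : i < n + 1 then A ⟨i, h⟩ else A (Fin.last n) with hA'
      have hcl : ∀ i, q ∈ fCl x (A' i) := by
        intro i
        simp only [hA']
        split_ifs with hi
        · exact h _
        · exact h _
      obtain ⟨t, ht, z, hz⟩ := E_all hs ho hcl (n + 1) hr
      refine ⟨t, ht, z n, meets_of_mem ⟨z, rfl, fun i => ?_⟩⟩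
      have h1 := hz i i.2
      simp only [hA'] at h1
      rw [dif_pos i.2] at h1
      exact h1
    · obtain ⟨t, ht, h2⟩ := exists_of_meets (down_Sn n A y) h1.1
      obtain ⟨t', ht', h3⟩ := exists_of_meets (down_Sn n A y') (down_meets _ r h1.2 t ht)
      exact Sn_unique hs (down_Sn n A y t h2 t' ht') h3
  · -- a legal answer
    refine fun y => mem_fimp.2 fun r hr h1 => ?_
    obtain ⟨t, ht, z, hz, h2⟩ := exists_of_meets (down_Sn n A y) h1
    refine ⟨t, ht, ?_⟩
    have h3 := (h2 (Fin.last n)).2.1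
    rw [Fin.val_last, hz] at h3
    exact h3
  · -- the answers accumulate
    intro O hO
    refine mem_fex.2 fun r hr => ?_
    by_contra hcon
    push Not at hcon
    have hno : ∀ t ≤ r, ∀ n, ∀ y ∈ O, t ∉ Sn s n (fun i => A i) y := by
      intro t ht n y hy h1
      refine hcon t ht y (mem_fex_of_mem hy (down_meets _) (meets_of_mem ?_))
      exact mem_iUnion.2 ⟨n, h1⟩
    -- the branch
    let St : ℕ → Type (max u v) := fun n =>
      {c : P × (ℕ → X) // c.1 ≤ r ∧ ∀ i < n, c.1 ∈ E s (A i) i c.2}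
    have hstep : ∀ n (c : St n), ∃ c' : St (n + 1), ∀ j, j ≠ n → c'.1.2 j = c.1.2 j := by
      rintro n ⟨⟨t, z⟩, ht, hz⟩
      obtain ⟨t', ht', z', hz', h1⟩ := E_ex hs ho (h n) n z (ht.trans hr)
      refine ⟨⟨(t', z'), ht'.trans ht, fun i hi => ?_⟩, hz'⟩
      rcases Nat.lt_succ_iff_lt_or_eq.1 hi with h3 | rfl
      · have h2 := down_E (A i) i z t (hz i h3) t' ht'
        rwa [E_congr hs (A i) (z := z) (z' := z') fun j hj => (hz' j (by omega)).symm] at h2
      · exact h1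
    choose f hf using hstep
    let st : (n : ℕ) → St n := fun n =>
      Nat.rec (motive := St) ⟨(r, fun _ => x), le_rfl, fun i hi => absurd hi (Nat.not_lt_zero i)⟩
        (fun n c => f n c) n
    have hst : ∀ n, st (n + 1) = f n (st n) := fun n => rfl
    set z : ℕ → X := fun n => (st (n + 1)).1.2 n with hz
    have hstab : ∀ n, ∀ i < n, (st n).1.2 i = z i := by
      intro n
      induction n with
      | zero => exact fun i hi => absurd hi (Nat.not_lt_zero i)
      | succ n ih =>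
        intro i hi
        rcases Nat.lt_succ_iff_lt_or_eq.1 hi with h3 | rfl
        · rw [hst, hf n (st n) i h3.ne]
          exact ih i h3
        · rfl
    have hE : ∀ n, ∀ i < n, (st n).1.1 ∈ E s (A i) i z := by
      intro n i hi
      have h1 := (st n).2.2 i hi
      rwa [E_congr hs (A i) (z := (st n).1.2) (z' := z) fun j hj => hstab n j (by omega)] at h1
    have h3 := hw z fun n => (hE (n + 1) n (Nat.lt_succ_self n)).1
    obtain ⟨y, hyO, n, hny⟩ := mem_closure_iff.1 h3 O hO.1 hO.2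
    exact hno (st (n + 1)).1.1 (st (n + 1)).2.1 n y hyO
      ⟨z, hny, fun i => hE (n + 1) i i.2⟩

/-- **Every forcing preserves the winning strategies of II.** -/
theorem preserved [TopologicalSpace X] (P : Type u) [Preorder P] {x : X} (h : IIWins x) (p : P) :
    p ∈ fIIWins P x := by
  obtain ⟨s, ho, hs, hw⟩ := dual h
  refine mem_fex.2 fun q _ => ⟨q, le_rfl, Sn s, win ho hs hw q⟩

end Pool.Agent.N730.FT
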