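import Mathlib
import Pool.Agent.V11244.CohCore
import Pool.Agent.N730.FT.Main

/-!
# Cohen forcing destroys the winning strategies of II in the Menger game on all spaces with a closed
subset that can be mapped onto the Cantor space
-/

set_option autoImplicit false
set_option linter.unusedSectionVars false

namespace Pool.Agent.N730.FT

open Pool.Agent.Helper669.Forcing
open Pool.Agent.V11244.CohGame (fSame fSub fFinite fCovers fOpenFam fOpenCover fWinning fIIWinsFin)
open Pool.Agent.V11244.CohCore (Coh Can)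
open Set

universe u v w

section

variable {P : Type u} [Preorder P] {X : Type v} [TopologicalSpace X] {Y : Type w} [TopologicalSpace Y]

/-- the large open set with the trace `f ⁻¹ U` -/
def ext (C : Set X) (f : C → Y) (U : Set Y) : Set X := {x | ∀ h : x ∈ C, f ⟨x, h⟩ ∈ U}

variable {C : Set X} {f : C → Y}

lemma ext_open (hC : IsClosed C) (hf : Continuous f) {U : Set Y} (hU : IsOpen U) : IsOpen (ext C f U) := by
  have h1 : (ext C f U)ᶜ = Subtype.val '' (f ⁻¹' Uᶜ) := by
    ext x
    simp only [ext, mem_compl_iff, mem_ofPred_eq, not_forall, mem_image, mem_preimage, Subtype.exists,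
      exists_and_right, exists_eq_right]
  rw [← isClosed_compl_iff, h1]
  exact (hC.isClosedEmbedding_subtypeVal).isClosedMap _ (hU.isClosed_compl.preimage hf)

lemma ext_inj (hs : Function.Surjective f) : Function.Injective (ext C f) := by
  have key : ∀ U V : Set Y, ext C f U = ext C f V → U ⊆ V := by
    intro U V h y hy
    obtain ⟨⟨x, hx⟩, rfl⟩ := hs y
    have h1 : x ∈ ext C f U := fun _ => hy
    rw [h] at h1
    exact h1 hx
  exact fun U V h => Subset.antisymm (key U V h) (key V U h.symm)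

/-- the pulled back name -/
def up (C : Set X) (f : C → Y) (A : Set Y → Set P) : Set X → Set P := fun O => {r | ∃ U, ext C f U = O ∧ r ∈ A U}

lemma up_ext (hs : Function.Surjective f) (A : Set Y → Set P) (U : Set Y) : up C f A (ext C f U) = A U := by
  ext r
  constructor
  · rintro ⟨V, h1, h2⟩
    rw [ext_inj hs h1] at h2
    exact h2
  · exact fun h => ⟨U, rfl, h⟩

lemma not_meets_empty {p : P} : p ∉ meets (∅ : Set P) := by
  intro h
  obtain ⟨r, _, s, hs, _⟩ := h p le_rfl
  exact hs

/-- a member of the pulled back family -/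
lemma up_mem (hs : Function.Surjective f) {A : Set Y → Set P} {O : Set X} {p : P} (h : p ∈ meets (up C f A O)) :
    ∃ U, ext C f U = O ∧ p ∈ meets (A U) := by
  by_cases hO : ∃ U, ext C f U = O
  · obtain ⟨U, rfl⟩ := hO
    rw [up_ext hs] at h
    exact ⟨U, rfl, h⟩
  · have : up C f A O = ∅ := by
      ext r
      simp only [up, mem_ofPred_eq, mem_empty_iff_false, iff_false, not_exists, not_and]
      exact fun U hU => absurd ⟨U, hU⟩ hO
    rw [this] at h
    exact absurd h not_meets_empty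

lemma up_same (hs : Function.Surjective f) {A B : Set Y → Set P} {p : P} (h : p ∈ fSame A B) :
    p ∈ fSame (up C f A) (up C f B) := by
  intro O
  constructor
  · refine mem_fimp.2 fun q hq h1 => ?_
    obtain ⟨U, rfl, h2⟩ := up_mem hs h1
    rw [up_ext hs]
    exact mem_fimp.1 (h U).1 q hq h2
  · refine mem_fimp.2 fun q hq h1 => ?_
    obtain ⟨U, rfl, h2⟩ := up_mem hs h1
    rw [up_ext hs]
    exact mem_fimp.1 (h U).2 q hq h2

lemma up_cover (hC : IsClosed C) (hf : Continuous f) (hs : Function.Surjective f) (y₀ : Y)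
    {A : Set Y → Set P} {p : P} (h : p ∈ fOpenCover A) : p ∈ fOpenCover (up C f A) := by
  refine ⟨fun O => mem_fimp.2 fun q hq h1 => ?_, fun x => mem_fex.2 fun q hq => ?_⟩
  · obtain ⟨U, rfl, h2⟩ := up_mem hs h1
    obtain ⟨r, hr, h3⟩ := mem_fimp.1 (h.1 U) q hq h2
    exact ⟨r, hr, ext_open hC hf h3⟩
  · by_cases hx : x ∈ C
    · obtain ⟨r, hr, U, h1⟩ := mem_fex.1 (h.2 (f ⟨x, hx⟩)) q hq
      obtain ⟨t, ht, hU, h2⟩ := mem_fex.1 h1 r le_rfl
      refine ⟨t, ht.trans hr, ext C f U, mem_fex_of_mem (fun _ => hU) (down_meets _) ?_⟩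
      rw [up_ext hs]
      exact h2
    · obtain ⟨r, hr, U, h1⟩ := mem_fex.1 (h.2 y₀) q hq
      obtain ⟨t, ht, hU, h2⟩ := mem_fex.1 h1 r le_rfl
      refine ⟨t, ht.trans hr, ext C f U, mem_fex_of_mem (fun h => absurd h hx) (down_meets _) ?_⟩
      rw [up_ext hs]
      exact h2

/-- **the game on the image of a closed subspace** -/
theorem pull (hC : IsClosed C) (hf : Continuous f) (hs : Function.Surjective f) (y₀ : Y) {p : P}
    (h : p ∈ fIIWinsFin (P := P) (X := X) fOpenCover fOpenCover) :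
    p ∈ fIIWinsFin (P := P) (X := Y) fOpenCover fOpenCover := by
  classical
  refine mem_fex.2 fun q hq => ?_
  obtain ⟨r, hr, S, hS⟩ := mem_fex.1 h q hq
  obtain ⟨c1, c2, c3⟩ := hS
  refine ⟨r, hr, fun n A U => S n (fun i => up C f (A i)) (ext C f U), ?_, ?_, ?_⟩
  · -- names
    refine fun n A B => mem_fimp.2 fun t ht h1 => ?_
    obtain ⟨t', ht', h2⟩ := mem_fimp.1 (c1 n (fun i => up C f (A i)) (fun i => up C f (B i))) t ht
      (fun i => up_same hs (h1 i))
    exact ⟨t', ht', fun U => h2 (ext C f U)⟩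
  · -- finite, legal
    refine fun n A => mem_fimp.2 fun t ht h1 => ?_
    obtain ⟨t', ht', h2, h3⟩ := mem_fimp.1 (c2 n (fun i => up C f (A i))) t ht
      (fun i => up_cover hC hf hs y₀ (h1 i))
    refine ⟨t', ht', mem_fex.2 fun a ha => ?_, fun U => ?_⟩
    · obtain ⟨b, hb, F, h4⟩ := mem_fex.1 h2 a ha
      refine ⟨b, hb, (F.preimage (ext C f) (ext_inj hs).injOn), fun U => ?_⟩
      refine mem_fimp.2 fun c hc h5 => ?_
      obtain ⟨d, hd, h6⟩ := mem_fimp.1 (h4 (ext C f U)) c hc h5
      exact ⟨d, hd, Finset.mem_preimage.2 h6⟩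
    · have h4 : t' ∈ fimp (meets (S n (fun i => up C f (A i)) (ext C f U)))
          (meets (up C f (A (Fin.last n)) (ext C f U))) := h3 (ext C f U)
      rw [up_ext hs] at h4
      exact h4
  · -- the cover
    refine fun A => mem_fimp.2 fun t ht h1 => ?_
    obtain ⟨t', ht', h2, h3⟩ := mem_fimp.1 (c3 (fun n => up C f (A n))) t ht
      (fun n => up_cover hC hf hs y₀ (h1 n))
    -- the members of the union are of the form `ext U`
    have hmem : ∀ a ≤ t, ∀ n O, a ∈ meets (S n (fun i : Fin (n + 1) => up C f (A i)) O) →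
        ∃ b ≤ a, ∃ U, ext C f U = O ∧ b ∈ meets (A n U) := by
      intro a ha n O h4
      obtain ⟨b, hb, _, h5⟩ := mem_fimp.1 (c2 n (fun i : Fin (n + 1) => up C f (A i))) a (ha.trans ht)
        (fun i => up_cover hC hf hs y₀ ((down_fand (down_fall fun _ => down_fimp _ _)
          (down_fall fun _ => down_fex _)) t (h1 i) a ha))
      obtain ⟨c, hc, h6⟩ := mem_fimp.1 (h5 O) b le_rfl (down_meets _ a h4 b hb)
      obtain ⟨U, hU, h7⟩ := up_mem hs h6
      rw [Fin.val_last] at h7
      exact ⟨c, hc.trans hb, U, hU, h7⟩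
    refine ⟨t', ht', fun U => mem_fimp.2 fun a ha h4 => ?_, fun y => mem_fex.2 fun a ha => ?_⟩
    · -- open
      obtain ⟨b, hb, s, hs1, hbs⟩ := h4 a le_rfl
      obtain ⟨n, hn⟩ := mem_iUnion.1 hs1
      obtain ⟨c, hc, V, hV, h5⟩ := hmem b (hb.trans (ha.trans ht')) n (ext C f U) (meets_of_le hn hbs)
      rw [ext_inj hs hV] at h5
      obtain ⟨d, hd, h6⟩ := mem_fimp.1 ((h1 n).1 U) c (hc.trans (hb.trans (ha.trans ht'))) h5
      exact ⟨d, hd.trans (hc.trans hb), h6⟩
    · obtain ⟨⟨x, hx⟩, rfl⟩ := hs y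
      obtain ⟨b, hb, O, h5⟩ := mem_fex.1 (h3 x) a ha
      obtain ⟨c, hc, hxO, h6⟩ := mem_fex.1 h5 b le_rfl
      obtain ⟨d, hd, s, hs1, hds⟩ := h6 c le_rfl
      obtain ⟨n, hn⟩ := mem_iUnion.1 hs1
      have hdt : d ≤ t := hd.trans (hc.trans (hb.trans (ha.trans ht')))
      obtain ⟨e, he, V, hV, h7⟩ := hmem d hdt n O (meets_of_le hn hds)
      subst hV
      refine ⟨e, he.trans (hd.trans (hc.trans hb)), V, mem_fex_of_mem (hxO hx) (down_meets _) ?_⟩
      exact meets_of_le (mem_iUnion.2 ⟨n, hn⟩) (he.trans hds)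

end

/-- **II has no winning strategy in the extension.** -/
theorem no_menger {X : Type v} [TopologicalSpace X] {C : Set X} (hC : IsClosed C) {f : C → Can}
    (hf : Continuous f) (hs : Function.Surjective f) (p : Coh) :
    p ∈ fnot (fIIWinsFin (P := Coh) (X := X) fOpenCover fOpenCover) := by
  intro q hq h
  exact Pool.Agent.V11244.CohCore.no_menger p q hq (pull hC hf hs (fun _ => true) h)

end Pool.Agent.N730.FT
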