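import Mathlib
import Pool.Agent.N730.FT.Menger

/-!
# Countable spaces
-/

set_option autoImplicit false
set_option linter.unusedSectionVars false

namespace Pool.Agent.N730.FT

open Pool.Agent.Helper669.Forcing
open Pool.Agent.V11244.CohGame (fFinite fCovers fOpenFam fOpenCover fIIWinsFin)
open Set

universe u v

variable {P : Type u} [Preorder P] {X : Type v} [TopologicalSpace X]

/-- `O` is the least member of the named family `B` which contains `x` -/
def L (x : X) (B : Set X → Set P) (O : Set X) : Set P :=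
  {r | x ∈ O ∧ r ∈ meets (B O) ∧ ∀ V, WellOrderingRel V O → x ∈ V → r ∈ fnot (meets (B V))}

lemma down_L (x : X) (B : Set X → Set P) (O : Set X) : Down (L x B O) :=
  fun p hp q hq => ⟨hp.1, down_meets _ p hp.2.1 q hq, fun V hV hx =>
    down_fnot _ p (hp.2.2 V hV hx) q hq⟩

lemma L_unique {x : X} {B : Set X → Set P} {O V : Set X} {p : P} (h : p ∈ L x B O) (h' : p ∈ L x B V) :
    O = V := by
  rcases trichotomous_of WellOrderingRel O V with h2 | h2 | h2
  · exact absurd h.2.1 (h'.2.2 O h2 h.1 p le_rfl)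
  · exact h2
  · exact absurd h'.2.1 (h.2.2 V h2 h'.1 p le_rfl)

lemma L_ex {x : X} {B : Set X → Set P} {p : P} (hB : p ∈ fCovers B) {q : P} (hq : q ≤ p) :
    ∃ r ≤ q, ∃ O, r ∈ L x B O := by
  classical
  set Z : Set (Set X) := {O | x ∈ O ∧ ∃ r ≤ q, r ∈ meets (B O)} with hZ
  have hne : Z.Nonempty := by
    obtain ⟨r, hr, O, h1⟩ := mem_fex.1 (hB x) q hq
    obtain ⟨t, ht, hx, h2⟩ := mem_fex.1 h1 r le_rfl
    exact ⟨O, hx, t, ht.trans hr, h2⟩
  have hwf : WellFounded (WellOrderingRel (α := Set X)) := IsWellFounded.wf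
  obtain ⟨hw1, r, hr, hw2⟩ := hwf.min_mem Z hne
  refine ⟨r, hr, hwf.min Z hne, hw1, hw2, fun V hV hx t ht h1 => ?_⟩
  exact hwf.not_lt_min Z ⟨hx, t, ht.trans hr, h1⟩ hV

lemma L_same {x : X} {A B : Set X → Set P} {p : P} (h : p ∈ fSame A B) {O : Set X} {q : P} (hq : q ≤ p)
    (hO : q ∈ meets (L x A O)) : q ∈ meets (L x B O) := by
  refine meets_dense fun r hr => ?_
  obtain ⟨t, ht, h1⟩ := exists_of_meets (down_L x A O) (down_meets _ q hO r hr)
  have htp : t ≤ p := (ht.trans hr).trans hq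
  refine ⟨t, ht, meets_of_mem ⟨h1.1, (same_iff h htp _).1 h1.2.1, fun V hV hx a ha h2 => ?_⟩⟩
  exact h1.2.2 V hV hx a ha ((same_iff h (ha.trans htp) _).2 h2)

/-- **On countable spaces II wins in every extension.** -/
theorem countable_wins [Countable X] (p : P) : p ∈ fIIWinsFin (P := P) (X := X) fOpenCover fOpenCover := by
  classical
  rcases isEmpty_or_nonempty X with hX | hX
  · refine mem_fex.2 fun q _ => ⟨q, le_rfl, fun _ _ _ => ∅, ?_, ?_, ?_⟩
    · exact fun n A B => mem_fimp.2 fun r hr _ => ⟨r, le_rfl, same_of fun _ _ _ => Iff.rfl⟩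
    · refine fun n A => mem_fimp.2 fun r hr _ => ⟨r, le_rfl, mem_fex.2 fun a ha => ⟨a, le_rfl, ∅, fun O => ?_⟩,
        fun O => ?_⟩
      · exact mem_fimp.2 fun b _ h => absurd h not_meets_empty
      · exact mem_fimp.2 fun b _ h => absurd h not_meets_empty
    · refine fun A => mem_fimp.2 fun r hr _ => ⟨r, le_rfl, fun O => ?_, fun x => (hX.false x).elim⟩
      refine mem_fimp.2 fun b _ h => ?_
      obtain ⟨c, _, s, hs, _⟩ := h b le_rfl
      obtain ⟨n, hn⟩ := mem_iUnion.1 hs
      exact absurd hn (notMem_empty s)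
  · obtain ⟨e, he⟩ := exists_surjective_nat X
    refine mem_fex.2 fun q _ => ⟨q, le_rfl, fun n A => L (e n) (A (Fin.last n)), ?_, ?_, ?_⟩
    · refine fun n A B => mem_fimp.2 fun r hr h => ⟨r, le_rfl, ?_⟩
      have h1 : r ∈ fSame (A (Fin.last n)) (B (Fin.last n)) := h (Fin.last n)
      have h2 : r ∈ fSame (B (Fin.last n)) (A (Fin.last n)) := fun y => ⟨(h1 y).2, (h1 y).1⟩
      exact same_of fun a ha O => ⟨L_same h1 ha, L_same h2 ha⟩
    · refine fun n A => mem_fimp.2 fun r hr h => ⟨r, le_rfl, mem_fex.2 fun a ha => ?_, fun O => ?_⟩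
      · obtain ⟨b, hb, O, hO⟩ := L_ex (x := e n) (h (Fin.last n)).2 ha
        refine ⟨b, hb, {O}, fun V => mem_fimp.2 fun c hc h1 => ?_⟩
        obtain ⟨d, hd, h2⟩ := exists_of_meets (down_L _ _ _) h1
        refine ⟨d, hd, ?_⟩
        have h3 := L_unique (down_L _ _ _ b hO d (hd.trans hc)) h2
        exact Finset.mem_singleton.2 h3.symm
      · refine mem_fimp.2 fun c hc h1 => ?_
        obtain ⟨d, hd, h2⟩ := exists_of_meets (down_L _ _ _) h1
        exact ⟨d, hd, h2.2.1⟩
    · refine fun A => mem_fimp.2 fun r hr h => ⟨r, le_rfl, fun O => mem_fimp.2 fun a ha h1 => ?_,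
        fun x => mem_fex.2 fun a ha => ?_⟩
      · obtain ⟨b, hb, s, hs, hbs⟩ := h1 a le_rfl
        obtain ⟨n, hn⟩ := mem_iUnion.1 hs
        have h2 := down_L _ _ _ s hn b hbs
        obtain ⟨c, hc, h3⟩ := mem_fimp.1 ((h n).1 O) b (hb.trans ha) h2.2.1
        exact ⟨c, hc.trans hb, h3⟩
      · obtain ⟨n, rfl⟩ := he x
        obtain ⟨b, hb, O, hO⟩ := L_ex (x := e n) (h n).2 ha
        exact ⟨b, hb, O, mem_fex_of_mem hO.1 (down_meets _) (meets_of_mem (mem_iUnion.2 ⟨n, hO⟩))⟩

/-- a compact metrizable space which is not countable has a closed subset that can be mapped onto the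
Cantor space -/
lemma exists_cantor [PolishSpace X] (h : ¬ Countable X) : ∃ (C : Set X) (f : C → (ℕ → Bool)), IsClosed C ∧
    Continuous f ∧ Function.Surjective f := by
  obtain ⟨g, _, hg, hi⟩ := isClosed_univ.exists_nat_bool_injection_of_not_countable (α := X) (by
    rwa [countable_univ_iff])
  have hemb : Topology.IsClosedEmbedding g := hg.isClosedEmbedding hi
  refine ⟨range g, fun x => (hemb.isEmbedding.toHomeomorph).symm x, hemb.isClosed_range,
    (hemb.isEmbedding.toHomeomorph).symm.continuous, (hemb.isEmbedding.toHomeomorph).symm.surjective⟩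

end Pool.Agent.N730.FT
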